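import Pool.Agent.Results.MP_93dabc_an.NoSelector

set_option autoImplicit false

/-!
# Scalarly measurable selectors of closed convex valued multi-functions: exactly dimension at
most one

* A real Banach space `X` has the property of the question (every scalarly measurable
  multi-function with nonempty convex closed values over a complete probability space has a
  scalarly measurable selector) if and only if `dim X ≤ 1`. The counterexample in dimension at
  least two has affine hyperplanes as values: a functional `φ` is unbounded above on the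
  hyperplane `g = a` unless it is a multiple of `g`.
* For bounded values: in every Banach space which contains an isometric copy of `C(K)` for some
  uncountable compact metric space `K` there is a counterexample with values in the unit ball.

The starting result `NoSelector` (a counterexample with values in the unit ball of `C(𝕋)`, `𝕋` the
circle) answers the question; its lemma `core` is used for the second part and its non-measurable
set for both.
-/

open MeasureTheory Set Topology

namespace Pool.Agent.Results.MP_93dabc_an.DimensionOne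

universe u

/-- A function with values in a real Banach space is scalarly measurable when its composition with
every continuous linear functional is measurable. -/
def ScalarlyMeasurable {Ω : Type} {X : Type u} [MeasurableSpace Ω] [NormedAddCommGroup X]
    [NormedSpace ℝ X] (f : Ω → X) : Prop :=
  ∀ φ : StrongDual ℝ X, Measurable (fun t => φ (f t))

/-- A multi-function is scalarly measurable when it meets every open half-space in a measurable
set of parameters. -/
def ScalarlyMeasurableMulti {Ω : Type} {X : Type u} [MeasurableSpace Ω] [NormedAddCommGroup X]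
    [NormedSpace ℝ X] (F : Ω → Set X) : Prop :=
  ∀ φ : StrongDual ℝ X, φ ≠ 0 → ∀ a : ℝ, MeasurableSet {t | (F t ∩ {x | a < φ x}).Nonempty}

/-- the one-dimensional case -/
lemma selector_real {Ω : Type} [MeasurableSpace Ω] (I : Ω → Set ℝ) (h0 : ∀ t, (I t).Nonempty)
    (h1 : ∀ t, Convex ℝ (I t)) (h2 : ∀ t, IsClosed (I t))
    (h3 : ∀ a : ℝ, MeasurableSet {t | ∃ r ∈ I t, a < r})
    (h4 : ∀ a : ℝ, MeasurableSet {t | ∃ r ∈ I t, r < a}) :
    ∃ g : Ω → ℝ, (∀ t, g t ∈ I t) ∧ Measurable g := by
  have hex : ∀ t, ∃ r ∈ I t, ∀ s ∈ I t, |r| ≤ |s| := by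
    intro t
    obtain ⟨r, hr, hr2⟩ := (h2 t).exists_infDist_eq_dist (h0 t) 0
    refine ⟨r, hr, fun s hs => ?_⟩
    have h5 := Metric.infDist_le_dist_of_mem (x := (0 : ℝ)) hs
    rw [hr2, Real.dist_eq, Real.dist_eq, zero_sub, zero_sub, abs_neg, abs_neg] at h5
    exact h5
  choose g hg hgm using hex
  have hpos : ∀ t, 0 < g t → ∀ r ∈ I t, g t ≤ r := by
    intro t ht r hr
    by_contra hlt
    push Not at hlt
    rcases le_or_gt 0 r with h | h
    · have h5 := hgm t r hr
      rw [abs_of_pos ht, abs_of_nonneg h] at h5
      linarith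
    · have h5 : (0 : ℝ) ∈ I t := by
        have h6 := (h1 t).ordConnected.out hr (hg t)
        exact h6 ⟨h.le, ht.le⟩
      have h6 := hgm t 0 h5
      rw [abs_of_pos ht, abs_zero] at h6
      linarith
  have hneg : ∀ t, g t < 0 → ∀ r ∈ I t, r ≤ g t := by
    intro t ht r hr
    by_contra hlt
    push Not at hlt
    rcases le_or_gt r 0 with h | h
    · have h5 := hgm t r hr
      rw [abs_of_neg ht, abs_of_nonpos h] at h5
      linarith
    · have h5 : (0 : ℝ) ∈ I t := by
        have h6 := (h1 t).ordConnected.out (hg t) hr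
        exact h6 ⟨ht.le, h.le⟩
      have h6 := hgm t 0 h5
      rw [abs_of_neg ht, abs_zero] at h6
      linarith
  refine ⟨g, hg, measurable_of_Ioi fun c => ?_⟩
  rcases lt_or_ge c 0 with hc | hc
  · have : g ⁻¹' Ioi c = {t | ∃ r ∈ I t, c < r} := by
      ext t
      constructor
      · exact fun h => ⟨g t, hg t, h⟩
      · rintro ⟨r, hr, hcr⟩
        show c < g t
        by_contra hlt
        push Not at hlt
        have := hneg t (by linarith) r hr
        linarith
    rw [this]
    exact h3 c
  · have : g ⁻¹' Ioi c = ⋃ n : ℕ, {t | ∃ r ∈ I t, r < c + 1 / ((n : ℝ) + 1)}ᶜ := by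
      ext t
      simp only [mem_preimage, mem_Ioi, mem_iUnion, mem_compl_iff, mem_ofPred_eq, not_exists,
        not_and, not_lt]
      constructor
      · intro h
        obtain ⟨n, hn⟩ := exists_nat_one_div_lt (sub_pos.2 h)
        refine ⟨n, fun r hr => ?_⟩
        have := hpos t (by linarith) r hr
        linarith
      · rintro ⟨n, hn⟩
        have h5 := hn (g t) (hg t)
        have h6 : (0 : ℝ) < 1 / ((n : ℝ) + 1) := by positivity
        linarith
    rw [this]
    exact MeasurableSet.iUnion fun n => (h4 _).compl

/-- spaces of dimension at most one have the property -/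
lemma selector_of_rank {X : Type u} [NormedAddCommGroup X] [NormedSpace ℝ X]
    (hX : Module.rank ℝ X ≤ 1) {Ω : Type} [MeasurableSpace Ω] (F : Ω → Set X)
    (hF : ∀ t, (F t).Nonempty ∧ Convex ℝ (F t) ∧ IsClosed (F t))
    (hm : ScalarlyMeasurableMulti F) :
    ∃ f : Ω → X, (∀ t, f t ∈ F t) ∧ ScalarlyMeasurable f := by
  obtain ⟨v, hv⟩ := rank_le_one_iff.1 hX
  by_cases hv0 : v = 0
  · subst hv0
    choose f hf using fun t => (hF t).1
    have hz : ∀ x : X, x = 0 := fun x => by
      obtain ⟨r, hr⟩ := hv x
      rw [← hr, smul_zero]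
    refine ⟨f, hf, fun φ => ?_⟩
    have : (fun t => φ (f t)) = fun _ => 0 := by
      funext t
      rw [hz (f t), map_zero]
    rw [this]
    exact measurable_const
  · obtain ⟨φ, -, hφ⟩ := exists_dual_vector ℝ v (norm_ne_zero_iff.2 hv0)
    have hφv : φ v ≠ 0 := by
      rw [hφ]
      simpa using hv0
    have hφ0 : φ ≠ 0 := fun h => hφv (by rw [h]; rfl)
    have hφn0 : -φ ≠ 0 := neg_ne_zero.2 hφ0
    have hpos : 0 < φ v := by
      rw [hφ]
      simpa using hv0
    obtain ⟨g, hg, hgm⟩ := selector_real (fun t => {r | r • v ∈ F t})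
      (fun t => by
        obtain ⟨x, hx⟩ := (hF t).1
        obtain ⟨r, hr⟩ := hv x
        exact ⟨r, by rw [mem_ofPred_eq, hr]; exact hx⟩)
      (fun t => by
        intro x hx y hy p q hp hq hpq
        have := (hF t).2.1 hx hy hp hq hpq
        show (p • x + q • y) • v ∈ F t
        rw [add_smul, smul_assoc, smul_assoc]
        exact this)
      (fun t => (hF t).2.2.preimage (by fun_prop : Continuous fun r : ℝ => r • v))
      (fun a => by
        have h := hm φ hφ0 (a * φ v)
        convert h using 1
        ext t
        constructor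
        · rintro ⟨r, hr, har⟩
          refine ⟨r • v, hr, ?_⟩
          show a * φ v < φ (r • v)
          rw [map_smul, smul_eq_mul]
          exact mul_lt_mul_of_pos_right har hpos
        · rintro ⟨x, hx, hax⟩
          obtain ⟨r, hr⟩ := hv x
          refine ⟨r, by rw [mem_ofPred_eq, hr]; exact hx, ?_⟩
          change a * φ v < φ x at hax
          rw [← hr, map_smul, smul_eq_mul] at hax
          exact lt_of_mul_lt_mul_right hax hpos.le)
      (fun a => by
        have h := hm (-φ) hφn0 (-(a * φ v))
        convert h using 1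
        ext t
        constructor
        · rintro ⟨r, hr, har⟩
          refine ⟨r • v, hr, ?_⟩
          show -(a * φ v) < -φ (r • v)
          rw [map_smul, smul_eq_mul]
          exact neg_lt_neg (mul_lt_mul_of_pos_right har hpos)
        · rintro ⟨x, hx, hax⟩
          obtain ⟨r, hr⟩ := hv x
          refine ⟨r, by rw [mem_ofPred_eq, hr]; exact hx, ?_⟩
          change -(a * φ v) < -φ x at hax
          rw [← hr, map_smul, smul_eq_mul] at hax
          exact lt_of_mul_lt_mul_right (neg_lt_neg_iff.1 hax) hpos.le)
    refine ⟨fun t => g t • v, hg, fun ψ => ?_⟩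
    have : (fun t => ψ (g t • v)) = fun t => g t * ψ v := by
      funext t
      rw [map_smul, smul_eq_mul]
    rw [this]
    exact hgm.mul_const _

/-- affine hyperplanes without a scalarly measurable selector -/
lemma hyperplanes {X : Type u} [NormedAddCommGroup X] [NormedSpace ℝ X]
    (φ₁ φ₂ : StrongDual ℝ X) (h1 : φ₁ ≠ 0) (h2 : ∀ c : ℝ, φ₂ ≠ c • φ₁) {Ω : Type}
    [MeasurableSpace Ω] (τ : Ω → ℝ) (hτ : Measurable τ) (hinj : Function.Injective τ)
    (V : Set Ω) (hV : ¬ MeasurableSet V) :
    ∃ F : Ω → Set X, (∀ t, (F t).Nonempty ∧ Convex ℝ (F t) ∧ IsClosed (F t)) ∧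
      ScalarlyMeasurableMulti F ∧ ∀ f : Ω → X, (∀ t, f t ∈ F t) → ¬ ScalarlyMeasurable f := by
  classical
  set a : Ω → ℝ := V.indicator (fun _ => 1) with ha
  set g : Ω → StrongDual ℝ X := fun t => φ₁ + τ t • φ₂ with hg
  have hdep : ∀ p q : ℝ, p • φ₁ + q • φ₂ = 0 → p = 0 ∧ q = 0 := by
    intro p q h
    have hq : q = 0 := by
      by_contra hq
      apply h2 (-(p / q))
      have h3 : q • φ₂ = -(p • φ₁) := by
        rw [eq_neg_iff_add_eq_zero, add_comm]
        exact h
      have h4 : φ₂ = q⁻¹ • (q • φ₂) := by rw [smul_smul, inv_mul_cancel₀ hq, one_smul]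
      rw [h4, h3]
      ext x
      simp only [smul_neg, neg_apply, smul_apply, smul_eq_mul]
      field_simp
    rw [hq, zero_smul, add_zero] at h
    exact ⟨(smul_eq_zero.1 h).resolve_right h1, hq⟩
  have hg0 : ∀ t, g t ≠ 0 := by
    intro t h
    have h3 : (1 : ℝ) • φ₁ + τ t • φ₂ = 0 := by rw [one_smul]; exact h
    exact one_ne_zero (hdep 1 (τ t) h3).1
  have hsurj : ∀ t, ∃ x, g t x = 1 := by
    intro t
    obtain ⟨x, hx⟩ : ∃ x, g t x ≠ 0 := by
      by_contra hcon
      push Not at hcon
      exact hg0 t (ContinuousLinearMap.ext hcon)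
    refine ⟨(g t x)⁻¹ • x, ?_⟩
    rw [map_smul, smul_eq_mul, inv_mul_cancel₀ hx]
  refine ⟨fun t => {x | g t x = a t}, fun t => ⟨?_, ?_, ?_⟩, ?_, ?_⟩
  · obtain ⟨x, hx⟩ := hsurj t
    exact ⟨a t • x, by rw [mem_ofPred_eq, map_smul, hx, smul_eq_mul, mul_one]⟩
  · intro x hx y hy p q hp hq hpq
    show g t (p • x + q • y) = a t
    rw [map_add, map_smul, map_smul, hx, hy, smul_eq_mul, smul_eq_mul, ← add_mul, hpq, one_mul]
  · exact isClosed_eq (g t).continuous continuous_const
  · intro φ hφ c
    set B : Set Ω := {t | (({x | g t x = a t} : Set X) ∩ {x | c < φ x}).Nonempty} with hB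
    have hbad : ∀ t, t ∉ B → ∃ l : ℝ, φ = l • g t := by
      intro t ht
      obtain ⟨x₁, hx₁⟩ := hsurj t
      refine ⟨φ x₁, ContinuousLinearMap.ext fun x => ?_⟩
      by_contra hne
      apply ht
      -- the vector `z` is in the kernel of `g t` and not in that of `φ`
      set z := x - g t x • x₁ with hz
      have hz1 : g t z = 0 := by rw [hz, map_sub, map_smul, hx₁, smul_eq_mul, mul_one, sub_self]
      have hz2 : φ z ≠ 0 := by
        rw [hz, map_sub, map_smul, smul_eq_mul]
        intro h
        apply hne
        show φ x = φ x₁ • g t x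
        rw [smul_eq_mul]
        linarith
      obtain ⟨y, hy⟩ : ∃ y, g t y = a t := ⟨a t • x₁, by rw [map_smul, hx₁, smul_eq_mul, mul_one]⟩
      clear_value z
      refine ⟨y + ((c + 1 - φ y) / φ z) • z, ?_, ?_⟩
      · show g t _ = a t
        rw [map_add, map_smul, hz1, smul_zero, add_zero, hy]
      · show c < φ _
        rw [map_add, map_smul, smul_eq_mul, div_mul_cancel₀ _ hz2]
        linarith
    have hsub : Bᶜ.Subsingleton := by
      intro s hs t ht
      obtain ⟨l, hl⟩ := hbad s hs
      obtain ⟨m, hm⟩ := hbad t ht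
      have h3 : (l - m) • φ₁ + (l * τ s - m * τ t) • φ₂ = 0 := by
        have h4 : l • g s = m • g t := hl.symm.trans hm
        ext x
        have h5 := DFunLike.congr_fun h4 x
        simp only [hg, smul_apply, add_apply, smul_eq_mul, zero_apply] at h5 ⊢
        linarith
      obtain ⟨h5, h6⟩ := hdep _ _ h3
      have h7 : l = m := by linarith
      subst h7
      have hl0 : l ≠ 0 := by
        rintro rfl
        exact hφ (by rw [hl, zero_smul])
      apply hinj
      have h8 : l * (τ s - τ t) = 0 := by linarith
      rcases mul_eq_zero.1 h8 with h | h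
      · exact absurd h hl0
      · linarith
    have hBc : MeasurableSet Bᶜ := by
      rcases hsub.eq_empty_or_singleton with h | ⟨t, h⟩
      · rw [h]
        exact MeasurableSet.empty
      · rw [h]
        have h3 : ({t} : Set Ω) = τ ⁻¹' {τ t} := by
          ext s
          simp only [mem_singleton_iff, mem_preimage]
          exact ⟨fun h => by rw [h], fun h => hinj h⟩
        rw [h3]
        exact hτ (measurableSet_singleton _)
    exact MeasurableSet.compl_iff.1 hBc
  · intro f hf hmeas
    apply hV
    have h3 : Measurable fun t => φ₁ (f t) + τ t * φ₂ (f t) :=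
      (hmeas φ₁).add (hτ.mul (hmeas φ₂))
    have h4 : (fun t => φ₁ (f t) + τ t * φ₂ (f t)) = a := by
      funext t
      exact hf t
    rw [h4] at h3
    have h5 : MeasurableSet (a ⁻¹' {1}) := h3 (measurableSet_singleton 1)
    have h6 : a ⁻¹' {1} = V := by
      ext t
      by_cases h : t ∈ V
      · simp [a, h]
      · simp [a, h]
    rw [h6] at h5
    exact h5

/-- spaces of dimension at least two have two functionals which are not proportional -/
lemma exists_functionals {X : Type u} [NormedAddCommGroup X] [NormedSpace ℝ X]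
    (hX : ¬ Module.rank ℝ X ≤ 1) :
    ∃ φ₁ φ₂ : StrongDual ℝ X, φ₁ ≠ 0 ∧ ∀ c : ℝ, φ₂ ≠ c • φ₁ := by
  by_contra hcon
  push Not at hcon
  apply hX
  rw [rank_le_one_iff]
  by_cases h0 : ∀ x : X, x = 0
  · exact ⟨0, fun x => ⟨0, by rw [h0 x, smul_zero]⟩⟩
  · push Not at h0
    obtain ⟨v, hv⟩ := h0
    obtain ⟨φ, -, hφ⟩ := exists_dual_vector ℝ v (norm_ne_zero_iff.2 hv)
    have hφv : φ v ≠ 0 := by
      rw [hφ]
      simpa using hv
    have hφ0 : φ ≠ 0 := fun h => hφv (by rw [h]; rfl)
    refine ⟨v, fun x => ⟨φ x / φ v, ?_⟩⟩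
    have hz : ∀ ψ : StrongDual ℝ X, ψ (x - (φ x / φ v) • v) = 0 := by
      intro ψ
      obtain ⟨c, hc⟩ := hcon φ ψ hφ0
      rw [hc, map_sub, map_smul]
      show c * φ x - (φ x / φ v) * (c * φ v) = 0
      field_simp
      ring
    by_contra hne
    have hne' : x - (φ x / φ v) • v ≠ 0 := fun h => hne (sub_eq_zero.1 h).symm
    obtain ⟨ψ, -, hψ⟩ := exists_dual_vector ℝ _ (norm_ne_zero_iff.2 hne')
    rw [hz ψ] at hψ
    exact hne' (by simpa using hψ.symm)

/-- the completed Lebesgue measure of the circle -/
lemma circle_data :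
    ∃ (Ω : Type) (_ : MeasurableSpace Ω) (μ : Measure Ω), IsProbabilityMeasure μ ∧
      μ.IsComplete ∧ (∃ V : Set Ω, ¬ MeasurableSet V) ∧
      ∃ i : Ω → UnitAddCircle, Measurable i ∧ Function.Injective i := by
  obtain ⟨V, hV⟩ := NoSelector.exists_not_nullMeasurable
  have hprob : IsProbabilityMeasure (volume : Measure UnitAddCircle).completion := by
    constructor
    have h0 : (volume : Measure UnitAddCircle).completion Set.univ = 1 := by
      have := Measure.completion_apply (volume : Measure UnitAddCircle) Set.univ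
      exact this.trans UnitAddCircle.measure_univ
    exact h0
  refine ⟨NullMeasurableSpace UnitAddCircle (volume : Measure UnitAddCircle), inferInstance,
    (volume : Measure UnitAddCircle).completion, hprob, inferInstance, ⟨V, hV⟩,
    fun t => t, ?_, fun x y h => h⟩
  intro A hA
  exact (hA.nullMeasurableSet : NullMeasurableSet A (volume : Measure UnitAddCircle))

/-- (1) For a real Banach space `X` the following are equivalent: over every complete probability
space every scalarly measurable multi-function with nonempty convex closed values in `X` has a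
scalarly measurable selector; the dimension of `X` is at most one.

(2) If `X` contains an isometric copy of `C(K)`, `K` an uncountable compact metric space, then over
some complete probability space there is a scalarly measurable multi-function with nonempty convex
closed values in the unit ball of `X` without scalarly measurable selector. -/
theorem result :
    (∀ (X : Type u) [NormedAddCommGroup X] [NormedSpace ℝ X] [CompleteSpace X],
      (∀ (Ω : Type) (_ : MeasurableSpace Ω) (μ : Measure Ω), IsProbabilityMeasure μ →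
        μ.IsComplete → ∀ F : Ω → Set X,
          (∀ t, (F t).Nonempty ∧ Convex ℝ (F t) ∧ IsClosed (F t)) → ScalarlyMeasurableMulti F →
            ∃ f : Ω → X, (∀ t, f t ∈ F t) ∧ ScalarlyMeasurable f) ↔ Module.rank ℝ X ≤ 1) ∧
    (∀ (X : Type u) [NormedAddCommGroup X] [NormedSpace ℝ X] [CompleteSpace X] (K : Type)
      [MetricSpace K] [CompactSpace K], Uncountable K → ∀ _ : C(K, ℝ) →ₗᵢ[ℝ] X,
      ∃ (Ω : Type) (_ : MeasurableSpace Ω) (μ : Measure Ω), IsProbabilityMeasure μ ∧
        μ.IsComplete ∧ ∃ F : Ω → Set X,
          (∀ t, (F t).Nonempty ∧ Convex ℝ (F t) ∧ IsClosed (F t) ∧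
            F t ⊆ Metric.closedBall 0 1) ∧ ScalarlyMeasurableMulti F ∧
          ∀ f : Ω → X, (∀ t, f t ∈ F t) → ¬ ScalarlyMeasurable f) := by
  constructor
  · intro X _ _ _
    constructor
    · intro h
      by_contra hX
      obtain ⟨φ₁, φ₂, h1, h2⟩ := exists_functionals hX
      obtain ⟨Ω, _, μ, hμ, hμc, ⟨V, hV⟩, i, hi, hinj⟩ := circle_data
      obtain ⟨e, he⟩ := MeasureTheory.exists_measurableEmbedding_real UnitAddCircle
      obtain ⟨F, hF1, hF2, hF3⟩ := hyperplanes φ₁ φ₂ h1 h2 (fun t => e (i t))
        (he.measurable.comp hi) (he.injective.comp hinj) V hV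
      obtain ⟨f, hf1, hf2⟩ := h Ω _ μ hμ hμc F hF1 hF2
      exact hF3 f hf1 hf2
    · intro hX Ω _ μ _ _ F hF hm
      exact selector_of_rank hX F hF hm
  · intro X _ _ _ K _ _ hK J
    obtain ⟨Ω, _, μ, hμ, hμc, ⟨V, hV⟩, i, hi, hinj⟩ := circle_data
    borelize K
    have hunc : ¬ Countable K := fun h => (not_countable_iff.2 hK) h
    have hcirc : ¬ Countable UnitAddCircle := by
      intro h
      have h3 : Countable (Ico (0 : ℝ) (0 + 1)) :=
        (AddCircle.equivIco (1 : ℝ) 0).symm.injective.countable
      have h4 := Cardinal.mk_le_aleph0_iff.2 h3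
      rw [Cardinal.mk_Ico_real (by norm_num)] at h4
      exact absurd h4 (not_le.2 Cardinal.aleph0_lt_continuum)
    let e : UnitAddCircle ≃ᵐ K := PolishSpace.measurableEquivOfNotCountable hcirc hunc
    obtain ⟨F, hF1, hF2, hF3⟩ := NoSelector.core (fun t => e (i t)) (e.measurable.comp hi)
      (e.injective.comp hinj) V hV
    refine ⟨Ω, _, μ, hμ, hμc, fun t => J '' (F t), fun t => ⟨(hF1 t).1.image _, ?_, ?_, ?_⟩,
      ?_, ?_⟩
    · exact (hF1 t).2.1.linear_image J.toLinearMap
    · exact J.isometry.isClosedEmbedding.isClosedMap _ (hF1 t).2.2.1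
    · rintro _ ⟨x, hx, rfl⟩
      have := (hF1 t).2.2.2 hx
      rw [mem_closedBall_zero_iff] at this ⊢
      rwa [J.norm_map]
    · intro φ _ c
      by_cases h0 : φ.comp J.toContinuousLinearMap = 0
      · have h3 : {t | (J '' (F t) ∩ {x | c < φ x}).Nonempty} = {_t | c < 0} := by
          ext t
          constructor
          · rintro ⟨_, ⟨x, hx, rfl⟩, h⟩
            have h4 : φ (J x) = 0 := congrArg (fun ψ : StrongDual ℝ C(K, ℝ) => ψ x) h0
            change c < φ (J x) at h
            rw [h4] at h
            exact h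
          · intro h
            obtain ⟨x, hx⟩ := (hF1 t).1
            have h4 : φ (J x) = 0 := congrArg (fun ψ : StrongDual ℝ C(K, ℝ) => ψ x) h0
            refine ⟨J x, ⟨x, hx, rfl⟩, ?_⟩
            show c < φ (J x)
            rw [h4]
            exact h
        rw [h3]
        exact MeasurableSet.const _
      · have h3 := hF2 (φ.comp J.toContinuousLinearMap) h0 c
        convert h3 using 1
        ext t
        constructor
        · rintro ⟨_, ⟨x, hx, rfl⟩, h⟩
          exact ⟨x, hx, h⟩
        · rintro ⟨x, hx, h⟩
          exact ⟨J x, ⟨x, hx, rfl⟩, h⟩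
    · intro f hf hmeas
      choose y hy hyf using hf
      apply hF3 y hy
      intro ψ
      -- extend the functional by Hahn-Banach
      obtain ⟨Ψ, hΨ, -⟩ := exists_extension_norm_eq (LinearMap.range J.toLinearMap)
        (ψ.comp (J.equivRange.symm.toContinuousLinearEquiv.toContinuousLinearMap))
      have h3 := hmeas Ψ
      have h4 : (fun t => Ψ (f t)) = fun t => ψ (y t) := by
        funext t
        rw [← hyf t]
        have h5 := hΨ (J.equivRange (y t))
        have h6 : ((J.equivRange (y t) : LinearMap.range J.toLinearMap) : X) = J (y t) := rfl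
        rw [h6] at h5
        rw [h5]
        show ψ (J.equivRange.symm (J.equivRange (y t))) = ψ (y t)
        rw [LinearIsometryEquiv.symm_apply_apply]
      rw [h4] at h3
      exact h3

end Pool.Agent.Results.MP_93dabc_an.DimensionOne
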